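import Pool.Graph.R_pool_sql_team_seeded_3997aac3.Q229.MS.Mem
import Pool.Graph.R_seed8.NPC.Classes
import Pool.Graph.R_seed8.H642R2.TMSim

/-!
# Matrix symmetry by a symmetric permutation matrix

`P A` is symmetric for some symmetric permutation matrix `P` if and only if there is an involution
`σ` with `A (σ i) (σ j) = A j i` for all `i`, `j`, i.e. an isomorphism of order at most two from the
digraph (with loops) given by `A` to its converse.  This problem is NP-complete as well, and it is
NP-hard to separate the matrices for which some symmetric `P` works from those for which no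
permutation matrix `P` works.
-/

set_option autoImplicit false

namespace Pool.Agent.Results.MP_e2e0ab_lc.SymmetricPermutation

open Pool.Agent.NPC Pool.Agent.H622R2 Pool.Agent.H958R2 Q229 Q229.MS

/-- **Matrix symmetry by a symmetric permutation matrix**: `P A` is symmetric for some permutation
matrix `P` that is symmetric itself. -/
def MatSymSym (M : List (List Bool)) : Prop :=
  ∃ σ : Equiv.Perm (Fin M.length), (σ.permMatrix ℤ).transpose = σ.permMatrix ℤ ∧
    (σ.permMatrix ℤ * toMat M).transpose = σ.permMatrix ℤ * toMat M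

theorem perm_symm_iff {n : ℕ} (σ : Equiv.Perm (Fin n)) :
    (σ.permMatrix ℤ).transpose = σ.permMatrix ℤ ↔ ∀ i, σ (σ i) = i := by
  have h : ∀ i j : Fin n, (σ.permMatrix ℤ) i j = if σ i = j then 1 else 0 := by
    intro i j
    simp [Equiv.Perm.permMatrix, PEquiv.toMatrix_apply, Equiv.toPEquiv_apply, eq_comm]
  constructor
  · intro h1 i
    have h2 := congrFun (congrFun h1 i) (σ i)
    rw [Matrix.transpose_apply, h, h, if_pos rfl] at h2
    by_contra h3
    rw [if_neg h3] at h2
    exact absurd h2 (by norm_num)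
  · intro h1
    ext i j
    rw [Matrix.transpose_apply, h, h]
    have : σ j = i ↔ σ i = j := ⟨fun h2 => by rw [← h2, h1], fun h2 => by rw [← h2, h1]⟩
    simp only [this]

/-- involutory version of `Sy` -/
def SyI {V : Type} (R : V → V → Bool) : Prop :=
  ∃ σ : Equiv.Perm V, (∀ x, σ (σ x) = x) ∧ ∀ x y, R (σ x) y = R (σ y) x

theorem mat_iff (M : List (List Bool)) (σ : Equiv.Perm (Fin M.length)) :
    (σ.permMatrix ℤ * toMat M).transpose = σ.permMatrix ℤ * toMat M ↔
      ∀ x y : Fin M.length, entry M (σ x) y = entry M (σ y) x := by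
  have h : ∀ (i j : Fin M.length),
      (σ.permMatrix ℤ * toMat M) i j = if entry M (σ i) j = true then 1 else 0 := by
    intro i j
    have h0 : σ.permMatrix ℤ * toMat M = (toMat M).submatrix σ id :=
      PEquiv.toMatrix_toPEquiv_mul σ (toMat M)
    rw [h0]
    rfl
  constructor
  · intro h1 x y
    have h2 := congrFun (congrFun h1 y) x
    rw [Matrix.transpose_apply, h, h] at h2
    by_cases h3 : entry M (σ x) y = true <;> by_cases h4 : entry M (σ y) x = true
    · rw [h3, h4]
    · rw [if_pos h3, if_neg h4] at h2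
      norm_num at h2
    · rw [if_neg h3, if_pos h4] at h2
      norm_num at h2
    · rw [Bool.not_eq_true] at h3 h4
      rw [h3, h4]
  · intro h1
    ext i j
    have h2 : entry M (σ j) i = entry M (σ i) j := h1 j i
    rw [Matrix.transpose_apply, h, h, h2]

theorem matSymSym_iff (M : List (List Bool)) :
    MatSymSym M ↔ SyI (fun i j : Fin M.length => entry M i j) :=
  exists_congr fun σ => and_congr (perm_symm_iff σ) (mat_iff M σ)

theorem syI_congr {V W : Type} {R : V → V → Bool} {R' : W → W → Bool} (e : V ≃ W)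
    (h : ∀ x y, R x y = R' (e x) (e y)) : SyI R' → SyI R := by
  rintro ⟨σ, h0, hσ⟩
  refine ⟨(e.trans σ).trans e.symm, fun x => by simp [h0], fun x y => ?_⟩
  rw [h, h]
  simpa using hσ (e x) (e y)

theorem syI_pad {S : Type} [Fintype S] [DecidableEq S] (R : S → S → Bool) (cl : S → ℕ) (K n : ℕ)
    (h : ∃ σ : Equiv.Perm S, (∀ s, σ (σ s) = s) ∧ (∀ s, cl (σ s) = cl s) ∧
      ∀ x y, R (σ x) y = R (σ y) x) : SyI (pad R cl K n) := by
  obtain ⟨σ, h0, hcl, hσ⟩ := h
  refine ⟨Equiv.sumCongr σ (Equiv.refl _), ?_, ?_⟩
  · rintro (x | t)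
    · simp [h0]
    · rfl
  · rintro (x | t) (y | u)
    · exact hσ x y
    · simp only [Equiv.sumCongr_apply, Sum.map_inl, Sum.map_inr, Equiv.refl_apply, pad, hcl]
    · simp only [Equiv.sumCongr_apply, Sum.map_inl, Sum.map_inr, Equiv.refl_apply, pad, hcl]
    · rfl

section
variable {N m : ℕ} {sg : Fin m → Fin 3 → Bool} {vr : Fin m → Fin 3 → Fin N}

theorem backwardI (τ : Fin N → Bool)
    (hτ : ∀ i, one3 (τ (vr i 0) == sg i 0) (τ (vr i 1) == sg i 1) (τ (vr i 2) == sg i 2) = true) :
    ∃ σ : Equiv.Perm (Vx N m), (∀ s, σ (σ s) = s) ∧ (∀ s, cl (σ s) = cl s) ∧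
      ∀ x y, R sg vr (σ x) y = R sg vr (σ y) x := by
  refine ⟨⟨F sg vr τ, F sg vr τ, F_F τ, F_F τ⟩, F_F τ, ?_, ?_⟩
  · intro s
    cases s <;> rfl
  · intro x y
    simp only [Equiv.coe_fn_mk]
    have wh : ∀ (i : Fin m) r b j p q, R sg vr (F sg vr τ (.w i r b)) (.h j p q) =
        R sg vr (F sg vr τ (.h j p q)) (.w i r b) := by
      intro i r b j p q
      simp only [F, R]
      by_cases h : i = j
      · subst h
        have h1 := bt_F _ _ _ p q b (hτ i) r
        rw [← lit_eq (fun r => (τ (vr i r) == sg i r)) r] at h1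
        rw [h1]
      · simp [h]
    have wq : ∀ (i : Fin m) r b j k, R sg vr (F sg vr τ (.w i r b)) (.q j k) =
        R sg vr (F sg vr τ (.q j k)) (.w i r b) := by
      intro i r b j k
      simp only [F, R]
      by_cases h : i = j
      · subst h
        by_cases h' : r = 0
        · subst h'
          rw [par_fq _ _ _ _ (hτ i), xor_iff]
          simp [eq_comm]
        · simp [h']
      · simp [h]
    have we : ∀ (i : Fin m) r b j k, R sg vr (F sg vr τ (.w i r b)) (.e j k) =
        R sg vr (F sg vr τ (.e j k)) (.w i r b) := by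
      intro i r b j k
      simp only [F, R]
      by_cases h : i = j
      · subst h
        by_cases h' : r = 1
        · subst h'
          rw [par_fe _ _ _ _ (hτ i), xor_iff]
          simp [eq_comm]
        · simp [h']
      · simp [h]
    have qe : ∀ (i : Fin m) k j l, R sg vr (F sg vr τ (.q i k)) (.e j l) =
        R sg vr (F sg vr τ (.e j l)) (.q i k) := by
      intro i k j l
      simp only [F, R]
      by_cases h : i = j
      · subst h
        rw [inc_fq _ _ _ _ _ (hτ i)]
      · simp [h]
    have vw : ∀ (x : Fin N) a (i : Fin m) r b, R sg vr (F sg vr τ (.v x a)) (.w i r b) =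
        R sg vr (F sg vr τ (.w i r b)) (.v x a) := by
      intro x a i r b
      simp only [F, R]
      by_cases h : vr i r = x
      · rw [h, link a b (τ x) (sg i r)]
      · simp [h]
    rcases x with ⟨x, a⟩ | ⟨i, r, b⟩ | ⟨i, p, q⟩ | ⟨i, k⟩ | ⟨i, k⟩ <;>
      rcases y with ⟨y, a'⟩ | ⟨j, s, b'⟩ | ⟨j, p', q'⟩ | ⟨j, k'⟩ | ⟨j, k'⟩
    · simp only [F, R]
      by_cases h : x = y
      · subst h
        rw [xor_iff]
      · simp [h, Ne.symm h]
    · exact vw _ _ _ _ _
    · rfl
    · rfl
    · rfl
    · exact (vw _ _ _ _ _).symm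
    · simp only [F, R]
      by_cases h : i = j
      · subst h
        by_cases h' : r = s
        · subst h'
          rw [xor_iff]
        · simp [h', Ne.symm h']
      · simp [h, Ne.symm h]
    · exact wh _ _ _ _ _ _
    · exact wq _ _ _ _ _
    · exact we _ _ _ _ _
    · rfl
    · exact (wh _ _ _ _ _ _).symm
    · simp only [F, R]
      by_cases h : i = j
      · subst h
        rw [xor_iff p p', xor_iff q q']
      · simp [h, Ne.symm h]
    · rfl
    · rfl
    · rfl
    · exact (wq _ _ _ _ _).symm
    · rfl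
    · simp only [F, R]
      by_cases h : i = j
      · subst h
        simp only [decide_true, Bool.true_and, decide_eq_decide]
        constructor
        · rintro rfl
          exact fq_fq _ _ _
        · rintro rfl
          exact fq_fq _ _ _
      · simp [h, Ne.symm h]
    · exact qe _ _ _ _
    · rfl
    · exact (we _ _ _ _ _).symm
    · rfl
    · exact (qe _ _ _ _).symm
    · simp only [F, R]
      by_cases h : i = j
      · subst h
        simp only [decide_true, Bool.true_and, decide_eq_decide]
        constructor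
        · rintro rfl
          exact fe_fe _ _ _
        · rintro rfl
          exact fe_fe _ _ _
      · simp [h, Ne.symm h]

end

theorem red_sym (φ : Fm) (h : Bd13 φ) (hX : X13 φ) : MatSymSym (red φ) := by
  obtain ⟨e, he⟩ := Pool.Agent.NPC.R671.exists_equiv (vs φ) (vs_nodup φ)
    (lab (3 * φ.length) φ.length (15 * φ.length * (24 * φ.length + 1)))
    (lab_injective _ _ _) (mem_vs φ)
  rw [matSymSym_iff]
  refine syI_congr (R' := pad (R (sgn φ) (vrb h)) cl (15 * φ.length) (24 * φ.length))
    ((finCongr (red_length φ)).trans e) ?_ (syI_pad _ _ _ _ ?_)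
  · intro i j
    have hi : i.1 < (vs φ).length := lt_of_lt_of_eq i.2 (red_length φ)
    have hj : j.1 < (vs φ).length := lt_of_lt_of_eq j.2 (red_length φ)
    rw [← relL_lab, Equiv.trans_apply, Equiv.trans_apply, he, he]
    exact entry_mat _ _ _ _ hi hj
  · have h3 : ∀ i : Fin φ.length, litL φ (3 * i.1) = φ[i].1 ∧ litL φ (3 * i.1 + 1) = φ[i].2.1 ∧
        litL φ (3 * i.1 + 2) = φ[i].2.2 := by
      intro i
      have h4 : φ.getD i.1 d0 = φ[i] := List.getD_eq_getElem _ _ i.2
      have e1 : 3 * i.1 % 3 = 0 := by omega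
      have e2 : (3 * i.1 + 1) % 3 = 1 := by omega
      have e3 : (3 * i.1 + 2) % 3 = 2 := by omega
      have e4 : 3 * i.1 / 3 = i.1 := by omega
      have e5 : (3 * i.1 + 1) / 3 = i.1 := by omega
      have e6 : (3 * i.1 + 2) / 3 = i.1 := by omega
      unfold litL
      rw [e1, e2, e3, e4, e5, e6, h4]
      exact ⟨rfl, rfl, rfl⟩
    obtain ⟨τ, hτ⟩ := hX
    refine backwardI (fun x => τ x.1) fun i => ?_
    have h5 := hτ φ[i] (List.getElem_mem _)
    obtain ⟨e1, e2, e3⟩ := h3 i
    have f1 : litL φ (3 * i.1 + (0 : Fin 3).1) = φ[i].1 := e1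
    have f2 : litL φ (3 * i.1 + (1 : Fin 3).1) = φ[i].2.1 := e2
    have f3 : litL φ (3 * i.1 + (2 : Fin 3).1) = φ[i].2.2 := e3
    simp only [vrb, sgn]
    rw [f1, f2, f3]
    exact h5

theorem MatSymSym.matSym {M : List (List Bool)} (h : MatSymSym M) : MatSym M := by
  obtain ⟨σ, _, h1⟩ := h
  exact ⟨σ, h1⟩

theorem hardI_between (Q : List (List Bool) → Prop) (h1 : ∀ M, MatSymSym M → Q M)
    (h2 : ∀ M, Q M → MatSym M) : HardI Q := by
  intro L hL
  obtain ⟨g, hg, _, hgL⟩ := (H958NLT.hardPr_X13.trans (Pr' := fun _ => True) (Q := Q) red_poly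
    (fun _ _ => trivial) (fun φ h => ⟨fun hX => h1 _ (red_sym φ h hX),
      fun hq => (red_iff φ h).2 (h2 _ hq)⟩)) L hL
  exact ⟨g, hg, hgL⟩

/-- the test of a certificate -/
def certS (x : List (List Bool) × List ℕ) : Bool :=
  certT x && (List.range x.1.length).all fun i => decide (x.2.getD (x.2.getD i 0) 0 = i)

theorem certS_poly : Poly certS := by
  refine Poly.and certT_poly ?_
  exact Poly.all (p := fun (x : List (List Bool) × List ℕ) i =>
    decide (x.2.getD (x.2.getD i 0) 0 = i)) (Poly.range_length (Poly.fst Poly.id))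
    (Poly.decide_eq (Poly.getD (Poly.snd (Poly.fst Poly.id))
      (Poly.getD (Poly.snd (Poly.fst Poly.id)) (Poly.snd Poly.id) (pc 0)) (pc 0))
      (Poly.snd Poly.id))

theorem certS_iff (M : List (List Bool)) : MatSymSym M ↔ ∃ w : List ℕ,
    sz w ≤ (Polynomial.X * (Polynomial.C 4 * Polynomial.X + Polynomial.C 2) +
      Polynomial.C 1 : Polynomial ℕ).eval (sz M) ∧ certS (M, w) = true := by
  have hn : M.length < sz M := length_lt_sz M
  simp only [Polynomial.eval_add, Polynomial.eval_mul, Polynomial.eval_C, Polynomial.eval_X]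
  rw [matSymSym_iff]
  constructor
  · rintro ⟨σ, h0, h⟩
    refine ⟨(List.finRange M.length).map fun i => (σ i).1, ?_, ?_⟩
    · have h1 := sz_list_lt M.length ((List.finRange M.length).map fun i => (σ i).1) (by
        intro x hx
        obtain ⟨v, _, rfl⟩ := List.mem_map.1 hx
        exact (σ v).2) (by simp)
      nlinarith
    · have hg : ∀ (i : ℕ) (hi : i < M.length),
          ((List.finRange M.length).map fun i => (σ i).1).getD i 0 = (σ ⟨i, hi⟩).1 := by
        intro i hi
        rw [List.getD_eq_getElem _ _ (by simpa using hi)]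
        simp
      unfold certS certT
      simp only [Bool.and_eq_true, List.all_eq_true, List.mem_range, decide_eq_true_eq]
      refine ⟨?_, ?_⟩
      · intro i hi
        refine ⟨?_, fun j hj => ?_⟩
        · rw [hg i hi]
          exact (σ _).2
        · unfold t2
          simp only [Bool.and_eq_true, Bool.or_eq_true, decide_eq_true_eq, Bool.not_eq_true',
            decide_eq_false_iff_not]
          rw [hg i hi, hg j hj]
          refine ⟨?_, h ⟨i, hi⟩ ⟨j, hj⟩⟩
          by_cases hij : i = j
          · exact Or.inl hij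
          · right
            intro h1
            have h2 := σ.injective (Fin.ext h1)
            rw [Fin.mk.injEq] at h2
            exact hij h2
      · intro i hi
        rw [hg i hi, hg _ (σ ⟨i, hi⟩).2]
        exact congrArg Fin.val (h0 ⟨i, hi⟩)
  · rintro ⟨w, -, h⟩
    unfold certS certT at h
    simp only [Bool.and_eq_true, List.all_eq_true, List.mem_range, decide_eq_true_eq] at h
    obtain ⟨h, h0⟩ := h
    let g : Fin M.length → Fin M.length := fun i => ⟨w.getD i.1 0, (h i.1 i.2).1⟩
    have hgg : ∀ i, g (g i) = i := fun i => Fin.ext (h0 i.1 i.2)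
    refine ⟨⟨g, g, hgg, hgg⟩, hgg, fun x y => ?_⟩
    have h1 := (h x.1 x.2).2 y.1 y.2
    unfold t2 at h1
    simp only [Bool.and_eq_true, Bool.or_eq_true, decide_eq_true_eq, Bool.not_eq_true',
        decide_eq_false_iff_not] at h1
    exact h1.2

theorem inNPP_sym : InNPP MatSymSym := inNPP_of certS_poly _ certS_iff

/-- **Matrix symmetry by a symmetric permutation matrix is NP-complete**, and every decision problem
`Q` that contains the matrices `A` for which `P A` is symmetric for some *symmetric* permutation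
matrix `P`, and is contained in MS, is NP-hard: it is NP-hard to separate the matrices for which
some symmetric `P` works from those for which no permutation matrix works. A symmetric `P` works for
`A` if and only if the digraph (with loops) given by `A` has an isomorphism of order at most two to
its converse. -/
theorem result :
    InNPP MatSymSym ∧ NPHardP MatSymSym ∧
    (∀ Q : List (List Bool) → Prop, (∀ M, MatSymSym M → Q M) → (∀ M, Q M → MatSym M) →
      NPHardP Q ∧ (Reduces (lang Q) (lang GraphIso) → NPHardP GraphIso) ∧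
      (InPP Q → ∀ L : Set (List Bool), InNP L → InP L)) ∧
    (∀ M : List (List Bool), MatSymSym M ↔ ∃ σ : Equiv.Perm (Fin M.length), (∀ i, σ (σ i) = i) ∧
      ∀ i j : Fin M.length, entry M (σ i) (σ j) = entry M j i) := by
  refine ⟨inNPP_sym, (hardI_between MatSymSym (fun _ h => h) fun _ h => h.matSym).toNPHardP,
    fun Q h1 h2 => ?_, fun M => ?_⟩
  · have hQ := (hardI_between Q h1 h2).toNPHardP
    refine ⟨hQ, ?_, fun h => NPHard.collapse hQ h⟩
    rintro ⟨f, hf, hfL⟩ L hL
    obtain ⟨g, hg, hgL⟩ := hQ L hL
    exact ⟨fun x => f (g x), Pool.Agent.H642R2.TMSim.polyTime_comp hf hg,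
      fun x => (hgL x).trans (hfL _)⟩
  · rw [matSymSym_iff]
    constructor
    · rintro ⟨σ, h0, h⟩
      refine ⟨σ, h0, fun i j => ?_⟩
      have h1 := h i (σ j)
      rw [h0] at h1
      exact h1
    · rintro ⟨σ, h0, h⟩
      refine ⟨σ, h0, fun i j => ?_⟩
      have h1 := h i (σ j)
      rw [h0] at h1
      exact h1

end Pool.Agent.Results.MP_e2e0ab_lc.SymmetricPermutation
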